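import Pool.Agent.Y866.EC.Sng

set_option autoImplicit false

open Finset Filter Topology

namespace Pool.Agent.Results.MP_1e9518_pr.NoEntropyCutoff

noncomputable section

/-- The graph `G` is vertex-transitive: its automorphism group acts transitively. -/
def VertexTransitive {V : Type} (G : SimpleGraph V) : Prop :=
  ∀ x y : V, ∃ φ : G ≃g G, φ x = y

/-- Transition matrix `P = (1/2)(I + A/D)` of the lazy simple random walk on `G`. -/
def lazySRW {V : Type} [Fintype V] [DecidableEq V] (G : SimpleGraph V) [DecidableRel G.Adj] :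
    Matrix V V ℝ :=
  fun x y => (if x = y then 1 / 2 else 0) + (if G.Adj x y then 1 / (2 * (G.degree x : ℝ)) else 0)

/-- Total variation distance to stationarity, `d(t) = max_x ‖P^t(x,·) - π‖_TV` with `π` the
uniform distribution on `V`. -/
def d {V : Type} [Fintype V] [DecidableEq V] (P : Matrix V V ℝ) (t : ℕ) : ℝ :=
  ⨆ x : V, (1 / 2 : ℝ) * ∑ y, |(P ^ t) x y - 1 / (Fintype.card V : ℝ)|

/-- Total variation mixing time `T_mix(ε) = min {t : d(t) ≤ ε}`. -/
def Tmix {V : Type} [Fintype V] [DecidableEq V] (P : Matrix V V ℝ) (ε : ℝ) : ℕ :=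
  sInf {t : ℕ | d P t ≤ ε}

/-- Relative entropy `H(t) = max_x ∑_y P^t(x,y) log (P^t(x,y) / π(y))` with `π` uniform. -/
def relEnt {V : Type} [Fintype V] [DecidableEq V] (P : Matrix V V ℝ) (t : ℕ) : ℝ :=
  ⨆ x : V, ∑ y, (P ^ t) x y * Real.log ((P ^ t) x y / (1 / (Fintype.card V : ℝ)))

/-- Entropic mixing time `T_ent(ε) = min {t : H(t) ≤ ε}`. -/
def Tent {V : Type} [Fintype V] [DecidableEq V] (P : Matrix V V ℝ) (ε : ℝ) : ℕ :=
  sInf {t : ℕ | relEnt P t ≤ ε}

/-- The second largest eigenvalue of an irreducible transition matrix `P` (for which the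
eigenvalue `1` is simple): the largest real eigenvalue different from `1`. -/
def lambda2 {V : Type} [Fintype V] [DecidableEq V] (P : Matrix V V ℝ) : ℝ :=
  sSup (spectrum ℝ P \ {1})

/-- Relaxation time `T_rel = 1 / (1 - λ₂)`. -/
def Trel {V : Type} [Fintype V] [DecidableEq V] (P : Matrix V V ℝ) : ℝ :=
  1 / (1 - lambda2 P)

/-- The product condition `T_mix / T_rel → ∞`, with `T_mix = T_mix(1/4)`. -/
def ProductCondition (V : ℕ → Type) [∀ n, Fintype (V n)] [∀ n, DecidableEq (V n)]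
    (P : ∀ n, Matrix (V n) (V n) ℝ) : Prop :=
  Tendsto (fun n => (Tmix (P n) (1 / 4) : ℝ) / Trel (P n)) atTop atTop

/-- Entropy cutoff: `T_ent(ε) / T_ent(δ) → 1` for all fixed `0 < ε < δ`. -/
def HasEntropyCutoff (V : ℕ → Type) [∀ n, Fintype (V n)] [∀ n, DecidableEq (V n)]
    (P : ∀ n, Matrix (V n) (V n) ℝ) : Prop :=
  ∀ ε δ : ℝ, 0 < ε → ε < δ →
    Tendsto (fun n => (Tent (P n) ε : ℝ) / (Tent (P n) δ : ℝ)) atTop (𝓝 1)

/-- There are finite connected vertex-transitive graphs `G_n` with `|V_n| → ∞` whose lazy simple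
random walks satisfy the product condition but have no entropy cutoff: in fact
`T_ent(1) ≥ (13/12) T_ent(10^6)` for every `n`. (The fourth item says that the minima which
define `T_mix(ε)` and `T_ent(ε)` exist.) -/
theorem result :
    ∃ (V : ℕ → Type) (_ : ∀ n, Fintype (V n)) (_ : ∀ n, DecidableEq (V n))
      (G : ∀ n, SimpleGraph (V n)) (_ : ∀ n, DecidableRel (G n).Adj),
      Tendsto (fun n => Fintype.card (V n)) atTop atTop ∧
      (∀ n, (G n).Connected) ∧
      (∀ n, VertexTransitive (G n)) ∧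
      (∀ n, ∀ ε : ℝ, 0 < ε → (∃ t, d (lazySRW (G n)) t ≤ ε) ∧
        ∃ t, relEnt (lazySRW (G n)) t ≤ ε) ∧
      ProductCondition V (fun n => lazySRW (G n)) ∧
      (∀ n, (13 / 12 : ℝ) * Tent (lazySRW (G n)) 1000000 ≤ Tent (lazySRW (G n)) 1) ∧
      ¬ HasEntropyCutoff V (fun n => lazySRW (G n)) := by
  obtain ⟨ε, K0, htend, hK0, hD⟩ := Pool.Agent.Y866.EC.facts_final
  have hD' : ∀ n : ℕ, Pool.Agent.Y866.EC.Dat (n + K0) (ε (n + K0)) := fun n =>
    hD _ (Nat.le_add_left _ _)
  choose V iF iD G iA h1 h2 h3 h4 h5 h6 h7 using hD'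
  have hfacts : ∀ n, Pool.Agent.Results.MP_1e9518_pr.EntropyPrecutoff.Facts (lazySRW (G n)) :=
    fun n => Pool.Agent.Results.MP_1e9518_pr.EntropyPrecutoff.facts (G n)
      (by have := h3 n; omega) (h1 n) (h2 n)
  -- entropic times
  have hlo : ∀ n, 26 * (n + K0) < Tent (lazySRW (G n)) 1 := by
    intro n
    have h8 : relEnt (lazySRW (G n)) (Tent (lazySRW (G n)) 1) ≤ 1 :=
      (hfacts n).tent_le one_pos
    by_contra hcon
    push Not at hcon
    have h9 : relEnt (lazySRW (G n)) (26 * (n + K0)) ≤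
        relEnt (lazySRW (G n)) (Tent (lazySRW (G n)) 1) := (hfacts n).anti hcon
    have h10 : 1 < relEnt (lazySRW (G n)) (26 * (n + K0)) := h5 n
    linarith
  have hup : ∀ n, Tent (lazySRW (G n)) 1000000 ≤ 24 * (n + K0) := fun n => Nat.sInf_le (h4 n)
  have hrat : ∀ n, (13 / 12 : ℝ) * Tent (lazySRW (G n)) 1000000 ≤ Tent (lazySRW (G n)) 1 := by
    intro n
    have h8 : (26 * (n + K0) : ℝ) < Tent (lazySRW (G n)) 1 := by exact_mod_cast hlo n
    have h9 : (Tent (lazySRW (G n)) 1000000 : ℝ) ≤ 24 * (n + K0) := by exact_mod_cast hup n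
    linarith
  refine ⟨V, iF, iD, G, iA, ?_, h1, h2, fun n ε' hε' => ⟨(hfacts n).dconv ε' hε',
    (hfacts n).conv ε' hε'⟩, ?_, hrat, ?_⟩
  · refine tendsto_atTop_mono (fun n => ?_) tendsto_id
    have := h3 n
    simp only [id]
    omega
  · -- product condition
    refine tendsto_atTop.2 fun b => ?_
    set L : ℝ := max 1 (b / 4) with hL
    have hL1 : 1 ≤ L := le_max_left _ _
    have hLb : b ≤ 4 * L := by
      have := le_max_right 1 (b / 4)
      rw [← hL] at this
      linarith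
    have he : ∀ᶠ k : ℕ in atTop, ε k < Real.exp (-(48 * L)) :=
      htend.eventually_lt_const (Real.exp_pos _)
    have hk : ∀ᶠ k : ℕ in atTop, 2 * L ≤ k := tendsto_natCast_atTop_atTop.eventually_ge_atTop _
    have hsh : Tendsto (fun n : ℕ => n + K0) atTop atTop := tendsto_add_atTop_nat K0
    filter_upwards [hsh.eventually (he.and hk)] with n hn
    obtain ⟨hn1, hn2⟩ := hn
    set k : ℕ := n + K0 with hkd
    have hk0 : (0 : ℝ) < k := by linarith
    set θ : ℝ := 1 - L / k with hθ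
    have hx : L / k ≤ 1 / 2 := by
      rw [div_le_div_iff₀ hk0 (by norm_num)]
      linarith
    have hx0 : 0 < L / k := by positivity
    have hθ0 : 0 ≤ θ := by linarith
    have h8 : Real.exp (-(2 * (L / k))) ≤ θ := by
      -- e^{2x} (1 - x) ≥ (1 + 2x)(1 - x) ≥ 1
      have h9 : 1 + 2 * (L / k) ≤ Real.exp (2 * (L / k)) := by
        have := Real.add_one_le_exp (2 * (L / k))
        linarith
      rw [Real.exp_neg, inv_le_iff_one_le_mul₀ (Real.exp_pos _)]
      calc (1 : ℝ) ≤ (1 - L / k) * (1 + 2 * (L / k)) := by nlinarith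
        _ ≤ θ * Real.exp (2 * (L / k)) := mul_le_mul_of_nonneg_left h9 hθ0
    have h9 : ε k < θ ^ (24 * k) := by
      refine hn1.trans_le ?_
      calc Real.exp (-(48 * L)) = Real.exp (-(2 * (L / k))) ^ (24 * k) := by
            rw [← Real.exp_nat_mul]
            congr 1
            push_cast
            field_simp
            ring
        _ ≤ θ ^ (24 * k) := pow_le_pow_left₀ (Real.exp_pos _).le h8 _
    have h10 : lambda2 (lazySRW (G n)) ≤ θ := h7 n θ hθ0 h9
    have h11 : L / k ≤ 1 - lambda2 (lazySRW (G n)) := by linarith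
    have h12 : 4 * k < Tmix (lazySRW (G n)) (1 / 4) := by
      have h13 : d (lazySRW (G n)) (Tmix (lazySRW (G n)) (1 / 4)) ≤ 1 / 4 :=
        (hfacts n).tmix_le (by norm_num)
      by_contra hcon
      push Not at hcon
      have h14 : 1 / 4 < d (lazySRW (G n)) (Tmix (lazySRW (G n)) (1 / 4)) := h6 n _ hcon
      linarith
    have h13 : (4 * k : ℝ) < Tmix (lazySRW (G n)) (1 / 4) := by exact_mod_cast h12
    change b ≤ (Tmix (lazySRW (G n)) (1 / 4) : ℝ) / (1 / (1 - lambda2 (lazySRW (G n))))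
    rw [div_div_eq_mul_div, div_one]
    calc b ≤ 4 * L := hLb
      _ = (4 * k) * (L / k) := by field_simp
      _ ≤ (Tmix (lazySRW (G n)) (1 / 4) : ℝ) * (1 - lambda2 (lazySRW (G n))) :=
          mul_le_mul h13.le h11 hx0.le (by positivity)
  · intro hcut
    have h8 := hcut 1 1000000 one_pos (by norm_num)
    have h9 : ∀ᶠ n in atTop, |(Tent (lazySRW (G n)) 1 : ℝ) /
        (Tent (lazySRW (G n)) 1000000 : ℝ) - 1| < 1 / 13 := by
      have := (Metric.tendsto_nhds.1 h8) (1 / 13) (by norm_num)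
      simpa [Real.dist_eq] using this
    obtain ⟨n, hn⟩ := h9.exists
    rw [abs_lt] at hn
    by_cases h0 : Tent (lazySRW (G n)) 1000000 = 0
    · rw [h0] at hn
      norm_num at hn
    · have hpos : (0 : ℝ) < Tent (lazySRW (G n)) 1000000 := by
        exact_mod_cast Nat.pos_of_ne_zero h0
      have h10 : (13 / 12 : ℝ) ≤ (Tent (lazySRW (G n)) 1 : ℝ) /
          (Tent (lazySRW (G n)) 1000000 : ℝ) := by
        rw [le_div_iff₀ hpos]
        exact hrat n
      linarith [hn.2]

end

end Pool.Agent.Results.MP_1e9518_pr.NoEntropyCutoff
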