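import Mathlib
import Pool.Agent.Helper394.Wrap
import Pool.Agent.Y307.Prof.Walk

open Finset Filter Topology
open Pool.Agent

namespace Pool.Agent.Results.MP_1e9518_pr.SeparationProfile

noncomputable section

/-- The graph `G` is vertex-transitive: its automorphism group acts transitively. -/
def VertexTransitive {V : Type} (G : SimpleGraph V) : Prop :=
  ∀ x y : V, ∃ φ : G ≃g G, φ x = y

/-- Transition matrix `P = (1/2)(I + A/D)` of the lazy simple random walk on `G`. -/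
def lazySRW {V : Type} [Fintype V] [DecidableEq V] (G : SimpleGraph V) [DecidableRel G.Adj] :
    Matrix V V ℝ :=
  fun x y => (if x = y then 1 / 2 else 0) + (if G.Adj x y then 1 / (2 * (G.degree x : ℝ)) else 0)

/-- Total variation distance to stationarity, `d(t) = max_x ‖P^t(x,·) - π‖_TV` with `π` the
uniform distribution on `V`. -/
def d {V : Type} [Fintype V] [DecidableEq V] (P : Matrix V V ℝ) (t : ℕ) : ℝ :=
  ⨆ x : V, (1 / 2 : ℝ) * ∑ y, |(P ^ t) x y - 1 / (Fintype.card V : ℝ)|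

/-- Total variation mixing time `T_mix(ε) = min {t : d(t) ≤ ε}`. -/
def Tmix {V : Type} [Fintype V] [DecidableEq V] (P : Matrix V V ℝ) (ε : ℝ) : ℕ :=
  sInf {t : ℕ | d P t ≤ ε}

/-- Separation distance `s(t) = max_{x,y} (1 - P^t(x,y)/π(y))` with `π` uniform. -/
def sep {V : Type} [Fintype V] [DecidableEq V] (P : Matrix V V ℝ) (t : ℕ) : ℝ :=
  ⨆ p : V × V, (1 - (P ^ t) p.1 p.2 / (1 / (Fintype.card V : ℝ)))

/-- Separation mixing time `T_sep(ε) = min {t : s(t) ≤ ε}`. -/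
def Tsep {V : Type} [Fintype V] [DecidableEq V] (P : Matrix V V ℝ) (ε : ℝ) : ℕ :=
  sInf {t : ℕ | sep P t ≤ ε}

/-- The second largest eigenvalue of an irreducible transition matrix `P` (for which the
eigenvalue `1` is simple): the largest real eigenvalue different from `1`. -/
def lambda2 {V : Type} [Fintype V] [DecidableEq V] (P : Matrix V V ℝ) : ℝ :=
  sSup (spectrum ℝ P \ {1})

/-- Relaxation time `T_rel = 1 / (1 - λ₂)`. -/
def Trel {V : Type} [Fintype V] [DecidableEq V] (P : Matrix V V ℝ) : ℝ :=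
  1 / (1 - lambda2 P)

/-- The product condition `T_mix / T_rel → ∞`, with `T_mix = T_mix(1/4)`. -/
def ProductCondition (V : ℕ → Type) [∀ n, Fintype (V n)] [∀ n, DecidableEq (V n)]
    (P : ∀ n, Matrix (V n) (V n) ℝ) : Prop :=
  Tendsto (fun n => (Tmix (P n) (1 / 4) : ℝ) / Trel (P n)) atTop atTop

/-- Separation cutoff: `T_sep(ε) / T_sep(1-ε) → 1` for every fixed `ε ∈ (0,1/2)`. -/
def HasSeparationCutoff (V : ℕ → Type) [∀ n, Fintype (V n)] [∀ n, DecidableEq (V n)]
    (P : ∀ n, Matrix (V n) (V n) ℝ) : Prop :=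
  ∀ ε : ℝ, 0 < ε → ε < 1 / 2 →
    Tendsto (fun n => (Tsep (P n) ε : ℝ) / (Tsep (P n) (1 - ε) : ℝ)) atTop (𝓝 1)

section

variable {G : Type} [AddCommGroup G] [Fintype G] [DecidableEq G]

theorem lazySRW_mulVec (S : Finset G) (h0 : (0 : G) ∉ S) (hn : ∀ s ∈ S, -s ∈ S) (f : G → ℝ) :
    (lazySRW (Helper394.cay S h0 hn)).mulVec f = Helper394.V S f := by
  ext x
  rw [Helper394.V_apply, Helper394.U_apply]
  simp only [Matrix.mulVec, dotProduct, lazySRW, add_mul, ite_mul, zero_mul,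
    Helper394.cay_degree, Helper394.cay_adj]
  rw [Finset.sum_add_distrib]
  congr 1
  · rw [Finset.sum_ite_eq univ x]
    simp
    ring
  · rw [← Finset.sum_filter]
    rw [div_div, Finset.sum_div]
    refine Finset.sum_bij' (fun y _ => y - x) (fun s _ => x + s) ?_ ?_ ?_ ?_ ?_
    · intro y hy; simpa using hy
    · intro s hs; simpa using hs
    · intro y _; simp
    · intro s _; simp
    · intro y _
      simp only [add_sub_cancel]
      ring

end

/-- There are connected circulant graphs `G_n` on `ℤ/N_n`, `N_n → ∞`, and times `t_n → ∞` such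
that the relaxation times of the lazy simple random walks are at most `8`, while the
separation distance and the total variation distance have the same limit profile `e^{-s}`:
`s_n(⌊s t_n⌋) → e^{-s}` and `d_n(⌊s t_n⌋) → e^{-s}` for every `s ≥ 0`, and
`T_sep(ε)/t_n → log(1/ε)`, `T_mix(ε)/t_n → log(1/ε)` for every `ε ∈ (0,1)`. In particular the
product condition holds, `T_sep(ε)/T_sep(1-ε)` tends to `log(1/ε)/log(1/(1-ε)) > 1` for every
`ε ∈ (0,1/2)`, and there is no separation cutoff. -/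
theorem result :
    ∃ (N : ℕ → ℕ) (_ : ∀ n, NeZero (N n)) (G : ∀ n, SimpleGraph (ZMod (N n)))
      (_ : ∀ n, DecidableRel (G n).Adj) (t : ℕ → ℝ),
      Tendsto N atTop atTop ∧
      (∀ n, (G n).Connected) ∧
      (∀ n, VertexTransitive (G n)) ∧
      (∀ n, ∀ x y z : ZMod (N n), (G n).Adj (x + z) (y + z) ↔ (G n).Adj x y) ∧
      (∀ n, 0 < Trel (lazySRW (G n)) ∧ Trel (lazySRW (G n)) ≤ 8) ∧
      Tendsto t atTop atTop ∧
      (∀ s : ℝ, 0 ≤ s →
        Tendsto (fun n => sep (lazySRW (G n)) ⌊s * t n⌋₊) atTop (𝓝 (Real.exp (-s))) ∧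
        Tendsto (fun n => d (lazySRW (G n)) ⌊s * t n⌋₊) atTop (𝓝 (Real.exp (-s)))) ∧
      (∀ ε : ℝ, 0 < ε → ε < 1 →
        Tendsto (fun n => (Tsep (lazySRW (G n)) ε : ℝ) / t n) atTop (𝓝 (Real.log (1 / ε))) ∧
        Tendsto (fun n => (Tmix (lazySRW (G n)) ε : ℝ) / t n) atTop (𝓝 (Real.log (1 / ε)))) ∧
      (∀ ε : ℝ, 0 < ε → ε < 1 / 2 →
        1 < Real.log (1 / ε) / Real.log (1 / (1 - ε)) ∧
        Tendsto (fun n => (Tsep (lazySRW (G n)) ε : ℝ) / (Tsep (lazySRW (G n)) (1 - ε) : ℝ)) atTop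
          (𝓝 (Real.log (1 / ε) / Real.log (1 / (1 - ε))))) ∧
      ProductCondition (fun n => ZMod (N n)) (fun n => lazySRW (G n)) ∧
      ¬ HasSeparationCutoff (fun n => ZMod (N n)) (fun n => lazySRW (G n)) := by
  obtain ⟨N, hN, S, w, hNn, hw1, hw2, hE⟩ := Y307.Prof.exists_seq
  have hB : ∀ n, Helper394.Bad (S n) (n + 64) := fun n =>
    (hE n).bad (by omega) (by nlinarith) (by omega) (by push_cast; exact hw1 n)
      (by push_cast; exact hw2 n)
  let G : ∀ n, SimpleGraph (ZMod (N n)) := fun n => Helper394.cay (S n) (hB n).zero (hB n).neg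
  have hP : ∀ n, ∀ f : ZMod (N n) → ℝ, (lazySRW (G n)).mulVec f = Helper394.V (S n) f :=
    fun n f => lazySRW_mulVec (S n) _ _ f
  have hcard : ∀ n, (0 : ℝ) < Fintype.card (ZMod (N n)) := fun n => by
    exact_mod_cast Fintype.card_pos
  have e : ∀ n, (1 : ℝ) - 1 / 2 * (1 - w n) = (1 + w n) / 2 := fun n => by ring
  have hlow : ∀ n k : ℕ, k ≤ (n + 64) ^ 2 →
      (1 - 1 / ((n + 64 : ℕ) : ℝ)) * (1 - 1 / 2 * (1 - w n)) ^ k - 1 / ((n + 64 : ℕ) : ℝ) ≤
        d (lazySRW (G n)) k := by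
    intro n k hk
    have h1 := (hE n).tv_lazy (by omega)
      (fun t x => Helper394.row_sum (hB n) (hP n) t x) (hP n) k hk
    rw [e]
    refine h1.trans ?_
    exact Helper394.ciSup_ge_val
      (fun x : ZMod (N n) =>
        (1 / 2 : ℝ) * ∑ y, |((lazySRW (G n)) ^ k) x y - 1 / (Fintype.card (ZMod (N n)) : ℝ)|) 0
  have hent : ∀ n k : ℕ, ∀ x y,
      ((1 - 1 / ((n + 64 : ℕ) : ℝ)) * (1 - (1 - 1 / 2 * (1 - w n)) ^ k * (1 / w n ^ 2))) /
        (Fintype.card (ZMod (N n)) : ℝ) ≤ ((lazySRW (G n)) ^ k) x y := by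
    intro n k x y
    rw [e]
    exact (hE n).entry (by omega) (Y307.Prof.w_pos hw2 n) (Y307.Prof.w_lt hw1 n) (hP n) k x y
  have hds : ∀ n k, d (lazySRW (G n)) k ≤ sep (lazySRW (G n)) k := by
    intro n k
    apply ciSup_le
    intro x
    have h1 : ∀ y, (1 - sep (lazySRW (G n)) k) / (Fintype.card (ZMod (N n)) : ℝ) ≤
        ((lazySRW (G n)) ^ k) x y := by
      intro y
      have h5 := Helper394.ciSup_ge_val
        (fun p : ZMod (N n) × ZMod (N n) => (1 - ((lazySRW (G n)) ^ k) p.1 p.2 /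
          (1 / (Fintype.card (ZMod (N n)) : ℝ)))) (x, y)
      change 1 - ((lazySRW (G n)) ^ k) x y / (1 / (Fintype.card (ZMod (N n)) : ℝ)) ≤
        sep (lazySRW (G n)) k at h5
      rw [div_div_eq_mul_div, div_one] at h5
      rw [div_le_iff₀ (hcard n)]
      linarith
    have h2 := Y307.Prof.tv_le_of_min _ (Helper394.row_sum (hB n) (hP n) k x) _ h1
    linarith
  have hsu : ∀ n k : ℕ, sep (lazySRW (G n)) k ≤ 1 - (1 - 1 / ((n + 64 : ℕ) : ℝ)) *
      (1 - (1 - 1 / 2 * (1 - w n)) ^ k * (1 / w n ^ 2)) := by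
    intro n k
    apply ciSup_le
    intro p
    have h1 := hent n k p.1 p.2
    rw [div_le_iff₀ (hcard n)] at h1
    rw [div_div_eq_mul_div, div_one]
    linarith
  have hsq : Y307.Prof.Squeeze (fun n k => sep (lazySRW (G n)) k)
      (fun n => 1 - (1 / 2) * (1 - w n)) (fun n => 1 / w n ^ 2)
      (fun n => 1 / ((1 / 2) * (1 - w n))) (fun n => (n + 64) ^ 2) (fun n => n + 64) :=
    Y307.Prof.squeeze_of hw1 hw2 (1 / 2) le_rfl (by norm_num) _
      (fun n k hk => (hlow n k hk).trans (hds n k)) hsu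
  have hsqd : Y307.Prof.Squeeze (fun n k => d (lazySRW (G n)) k)
      (fun n => 1 - (1 / 2) * (1 - w n)) (fun n => 1 / w n ^ 2)
      (fun n => 1 / ((1 / 2) * (1 - w n))) (fun n => (n + 64) ^ 2) (fun n => n + 64) :=
    Y307.Prof.squeeze_of hw1 hw2 (1 / 2) le_rfl (by norm_num) _ hlow
      (fun n k => (hds n k).trans (hsu n k))
  have hrel : ∀ n, 0 < Trel (lazySRW (G n)) ∧ Trel (lazySRW (G n)) ≤ 8 := by
    intro n
    obtain ⟨h4, h5⟩ := Helper394.lam2_bound (lazySRW (G n))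
      (fun lam hlam hne => Helper394.fact_spec (hB n) (hP n) lam hlam hne)
    have h6 : 0 < 1 - lambda2 (lazySRW (G n)) := by
      have : lambda2 (lazySRW (G n)) ≤ 7 / 8 := h5
      linarith
    refine ⟨one_div_pos.mpr h6, ?_⟩
    rw [Trel, div_le_iff₀ h6]
    have : lambda2 (lazySRW (G n)) ≤ 7 / 8 := h5
    linarith
  have hmix : ∀ ε : ℝ, 0 < ε → ε < 1 →
      Tendsto (fun n => (Tmix (lazySRW (G n)) ε : ℝ) /
        (1 / ((1 / 2) * (1 - w n)))) atTop (𝓝 (Real.log (1 / ε))) :=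
    fun ε h0 h1 => hsqd.mixing h0 h1
  have hmixs : ∀ ε : ℝ, 0 < ε → ε < 1 →
      Tendsto (fun n => (Tsep (lazySRW (G n)) ε : ℝ) /
        (1 / ((1 / 2) * (1 - w n)))) atTop (𝓝 (Real.log (1 / ε))) :=
    fun ε h0 h1 => hsq.mixing h0 h1
  have hratio : ∀ ε : ℝ, 0 < ε → ε < 1 / 2 →
      Tendsto (fun n => (Tsep (lazySRW (G n)) ε : ℝ) / (Tsep (lazySRW (G n)) (1 - ε) : ℝ)) atTop
        (𝓝 (Real.log (1 / ε) / Real.log (1 / (1 - ε)))) :=
    fun ε h0 h1 => hsq.ratio h0 (by linarith) (by linarith) (by linarith)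
  refine ⟨N, hN, G, fun n => inferInstance, fun n => 1 / ((1 / 2) * (1 - w n)), ?_,
    fun n => Helper394.cay_connected (hB n), fun n x y => Helper394.cay_transitive _ _ _ x y,
    ?_, hrel, hsq.tlim, fun s hs => ⟨hsq.profile hs, hsqd.profile hs⟩,
    fun ε h0 h1 => ⟨hmixs ε h0 h1, hmix ε h0 h1⟩,
    fun ε h0 h1 => ⟨Y307.Prof.log_ratio_ne h0 h1, hratio ε h0 h1⟩, ?_, ?_⟩
  · refine tendsto_atTop_mono (fun n => ?_) tendsto_id
    have := hNn n
    simp only [id]
    omega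
  · intro n x y z
    change (Helper394.cay (S n) _ _).Adj (x + z) (y + z) ↔ (Helper394.cay (S n) _ _).Adj x y
    rw [Helper394.cay_adj, Helper394.cay_adj, add_sub_add_right_eq_sub]
  · have h1 : Tendsto (fun n => ((Tmix (lazySRW (G n)) (1 / 4) : ℝ) /
        (1 / ((1 / 2) * (1 - w n)))) * (1 / ((1 / 2) * (1 - w n)))) atTop atTop := by
      refine (hmix (1 / 4) (by norm_num) (by norm_num)).pos_mul_atTop ?_ hsq.tlim
      apply Real.log_pos
      norm_num
    have h2 : Tendsto (fun n => (Tmix (lazySRW (G n)) (1 / 4) : ℝ) / 8) atTop atTop := by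
      refine (h1.atTop_div_const (by norm_num : (0 : ℝ) < 8)).congr fun n => ?_
      have h3 : (1 / ((1 / 2) * (1 - w n)) : ℝ) ≠ 0 := by
        have := hsq.tpos n
        linarith
      rw [div_mul_cancel₀ _ h3]
    refine tendsto_atTop_mono (fun n => ?_) h2
    exact div_le_div_of_nonneg_left (Nat.cast_nonneg _) (hrel n).1 (hrel n).2
  · intro hcut
    have h1 := tendsto_nhds_unique (hcut (1 / 4) (by norm_num) (by norm_num))
      (hratio (1 / 4) (by norm_num) (by norm_num))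
    have h2 := Y307.Prof.log_ratio_ne (ε := 1 / 4) (by norm_num) (by norm_num)
    linarith

end

end Pool.Agent.Results.MP_1e9518_pr.SeparationProfile
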